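import Pool.Agent.Lib.FUni.Types

set_option autoImplicit false

namespace Pool.Agent.Results.MP_f53640_co.LinearExponent

open SimpleGraph Pool.Agent.FUni

/-- Universality gives embeddings of all chains. -/
theorem exists_emb {t n d L : ℕ} (ht : 2 ≤ t) (hn : L * d < n) {W : Type} (U : SimpleGraph W)
    (huniv : ∀ G : SimpleGraph (Fin n), ¬ HasCompleteMinor G t → G.IsContained U)
    (P : ℕ → SimpleGraph (Fin (d + 1))) (hP : ∀ i, i < L → Good t (P i)) :
    ∃ g : ℕ → W, Emb d L P U g := by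
  have hfree : ¬ HasCompleteMinor ((chainGraph d L P).comap (Fin.val : Fin n → ℕ)) t := by
    intro h
    exact chain_free ht L P (fun i hi => (hP i hi).free)
      (h.of_inj Fin.val Fin.val_injective (fun _ _ h => h))
  obtain ⟨f⟩ := huniv _ hfree
  have hn0 : 0 < n := by omega
  refine ⟨fun x => if h : x < n then f ⟨x, h⟩ else f ⟨0, hn0⟩, ?_, ?_⟩
  · intro x y hx hy hxy
    have h1 : x < n := by omega
    have h2 : y < n := by omega
    simp only [h1, h2, dif_pos] at hxy
    have h3 := f.injective hxy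
    exact congrArg Fin.val h3
  · intro x y hxy
    have hxy' := hxy
    obtain ⟨i, hi, a, b, hxa, hyb, _⟩ := hxy'
    have h0 := mul_lt_le (d := d) hi
    have ha := a.2
    have hb := b.2
    have h1 : x < n := by omega
    have h2 : y < n := by omega
    simp only [h1, h2, dif_pos]
    apply f.toHom.map_adj
    exact hxy

theorem two_pow_large (k : ℕ) (hk : 11 ≤ k) : 100 * (k + 1) ≤ 2 ^ k := by
  induction k, hk using Nat.le_induction with
  | base => norm_num
  | succ k hk ih =>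
    rw [pow_succ]
    omega

theorem nat_bound (t : ℕ) (ht : 1000 ≤ t) (c : ℕ)
    (hc : 2 ^ (((t - 5) / 3) * ((t - 5) / 3)) ≤ c * (2 * t - 5).factorial) :
    ∃ q : ℕ, t * t ≤ 20 * q ∧ 2 ^ q * (2 * t - 5) ≤ c := by
  set p := (t - 5) / 3 with hp
  set k := t / 50 with hk
  have hk1 : 50 * k ≤ t := Nat.mul_div_le t 50
  have hk2 : t < 50 * (k + 1) := by omega
  have hk3 : 20 ≤ k := by omega
  have hp1 : t ≤ 3 * p + 7 := by omega
  have h2t : 2 * t ≤ 2 ^ k := by
    have := two_pow_large k (by omega)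
    omega
  have hfac : (2 * t - 5).factorial * (2 * t - 5) ≤ 2 ^ (k * (2 * t)) := by
    have h1 : (2 * t - 5).factorial ≤ (2 * t) ^ (2 * t - 5) :=
      (Nat.factorial_le_pow _).trans (Nat.pow_le_pow_left (by omega) _)
    calc (2 * t - 5).factorial * (2 * t - 5) ≤ (2 * t) ^ (2 * t - 5) * (2 * t) :=
          Nat.mul_le_mul h1 (by omega)
      _ = (2 * t) ^ (2 * t - 5 + 1) := by rw [pow_succ]
      _ ≤ (2 * t) ^ (2 * t) := Nat.pow_le_pow_right (by omega) (by omega)
      _ ≤ (2 ^ k) ^ (2 * t) := Nat.pow_le_pow_left h2t _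
      _ = 2 ^ (k * (2 * t)) := by rw [← pow_mul]
  have hq0 : k * (2 * t) ≤ p * p ∧ t * t ≤ 20 * (p * p - k * (2 * t)) := by
    obtain ⟨s, hs⟩ : ∃ s, t = s + 7 := ⟨t - 7, by omega⟩
    have h3p : s ≤ 3 * p := by omega
    have h9 : s * s ≤ 9 * (p * p) := by nlinarith
    have hkt : 50 * (k * (2 * t)) ≤ 2 * (t * t) := by nlinarith
    have hst : 10 * s ≥ 9 * t := by omega
    have hs2 : 81 * (t * t) ≤ 100 * (s * s) := by nlinarith
    constructor
    · nlinarith
    · have : t * t + 20 * (k * (2 * t)) ≤ 20 * (p * p) := by nlinarith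
      omega
  obtain ⟨hq1, hq2⟩ := hq0
  refine ⟨p * p - k * (2 * t), hq2, ?_⟩
  have hpos : 0 < (2 * t - 5).factorial * 2 ^ (k * (2 * t)) :=
    Nat.mul_pos (Nat.factorial_pos _) (by positivity)
  -- multiply out
  have h1 : 2 ^ (p * p - k * (2 * t)) * 2 ^ (k * (2 * t)) = 2 ^ (p * p) := by
    rw [← pow_add]; congr 1; omega
  have h2 : 2 ^ (p * p - k * (2 * t)) * (2 * t - 5) * (2 ^ (k * (2 * t))) ≤
      c * 2 ^ (k * (2 * t)) := by
    calc 2 ^ (p * p - k * (2 * t)) * (2 * t - 5) * (2 ^ (k * (2 * t)))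
        = (2 ^ (p * p - k * (2 * t)) * 2 ^ (k * (2 * t))) * (2 * t - 5) := by ring
      _ = 2 ^ (p * p) * (2 * t - 5) := by rw [h1]
      _ ≤ c * (2 * t - 5).factorial * (2 * t - 5) := Nat.mul_le_mul_right _ hc
      _ = c * ((2 * t - 5).factorial * (2 * t - 5)) := by ring
      _ ≤ c * 2 ^ (k * (2 * t)) := Nat.mul_le_mul_left _ hfac
  exact Nat.le_of_mul_le_mul_right h2 (by positivity)

/-- For all `t ≥ 1000` and `n ≥ 2t`, every `K_t`-minor-free graph that contains all `n`-vertex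
`K_t`-minor-free graphs as subgraphs has at least `2^(t*n/200)` vertices. -/
theorem result (t n : ℕ) (ht : 1000 ≤ t) (hn : 2 * t ≤ n) (W : Type) [Fintype W]
    (U : SimpleGraph W) (hU : ¬ HasCompleteMinor U t)
    (huniv : ∀ G : SimpleGraph (Fin n), ¬ HasCompleteMinor G t → G.IsContained U) :
    (2 : ℝ) ^ ((t : ℝ) * (n : ℝ) / 200) ≤ (Fintype.card W : ℝ) := by
  classical
  set p := (t - 5) / 3 with hp
  have hpar : Params t p (t - 5) (t - 3 * p) := by
    constructor <;> omega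
  set d := 2 * t - 6 with hd
  obtain ⟨ι, hι, Q, hgood, hroot, hiso, hcard⟩ := exists_family hpar d (by omega)
  set L := (n - 1) / d with hL
  have hLd : L * d ≤ n - 1 := Nat.div_mul_le_self _ _
  have hdpos : 0 < d := by omega
  have hL1 : 1 ≤ L := by
    rw [hL, Nat.one_le_div_iff hdpos]; omega
  have hLn : n - 1 < d * (L + 1) := by
    rw [hL]; exact Nat.lt_mul_div_succ _ hdpos
  have hbound := card_bound (U := U) (L := L) (by omega) hU Q hgood hroot hiso (by
    intro τ
    refine exists_emb (n := n) (by omega) (by omega) U huniv _ ?_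
    intro i hi
    simp only [hi, dif_pos]
    exact hgood _)
  have hd1 : d + 1 = 2 * t - 5 := by omega
  rw [hd1] at hbound hcard
  obtain ⟨q, hq1, hq2⟩ := nat_bound t ht _ hcard
  -- combine
  have h1 : (2 ^ q) ^ L ≤ Fintype.card W ^ 2 := by
    have h2 : (2 ^ q * (2 * t - 5)) ^ L ≤ Fintype.card W ^ 2 * (2 * t - 5) ^ L :=
      (Nat.pow_le_pow_left hq2 L).trans hbound
    rw [mul_pow] at h2
    exact Nat.le_of_mul_le_mul_right h2 (by
      have : 0 < 2 * t - 5 := by omega
      positivity)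
  have h3 : ((2 : ℝ) ^ ((q * L : ℕ) : ℝ)) ≤ (Fintype.card W : ℝ) ^ 2 := by
    rw [Real.rpow_natCast, pow_mul]
    exact_mod_cast h1
  have h4 : (2 : ℝ) ^ (((q * L : ℕ) : ℝ) / 2) ≤ (Fintype.card W : ℝ) := by
    apply le_of_sq_le_sq _ (by positivity)
    rw [← Real.rpow_natCast ((2 : ℝ) ^ (((q * L : ℕ) : ℝ) / 2)) 2, ← Real.rpow_mul (by norm_num)]
    have : ((q * L : ℕ) : ℝ) / 2 * ((2 : ℕ) : ℝ) = ((q * L : ℕ) : ℝ) := by push_cast; ring
    rw [this]
    exact h3
  refine le_trans ?_ h4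
  apply Real.rpow_le_rpow_of_exponent_le (by norm_num)
  -- exponents
  have h5 : n ≤ 4 * t * L := by
    have h6 : d * (L + 1) ≤ d * (2 * L) := Nat.mul_le_mul_left _ (by omega)
    have h7 : d * (2 * L) ≤ 2 * t * (2 * L) := Nat.mul_le_mul_right _ (by omega)
    have h8 : 2 * t * (2 * L) = 4 * t * L := by ring
    omega
  have h6 : t * n ≤ 80 * (q * L) := by
    calc t * n ≤ t * (4 * t * L) := Nat.mul_le_mul_left _ h5
      _ = 4 * L * (t * t) := by ring
      _ ≤ 4 * L * (20 * q) := Nat.mul_le_mul_left _ hq1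
      _ = 80 * (q * L) := by ring
  have h7 : (t : ℝ) * (n : ℝ) ≤ 80 * ((q * L : ℕ) : ℝ) := by exact_mod_cast h6
  have h8 : (0 : ℝ) ≤ ((q * L : ℕ) : ℝ) := by positivity
  linarith

end Pool.Agent.Results.MP_f53640_co.LinearExponent
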